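import Pool.Agent.X187.JA.Local

/-!
# The jump part of `𝓑u` is absolutely continuous with respect to `ℋ^(n-1)`

Let `𝓑[D] = ∑ B_j ∂_j` be ANY first-order operator with constant coefficients on `ℝ^n`, `n ≥ 2`, and
let `u ∈ L¹(Ω; V)` be such that `𝓑u` is a finite `W`-valued measure. Then `|𝓑u|` vanishes on all
subsets `A` of the jump set `J_u` with `ℋ^(n-1)(A) = 0`. No ellipticity is needed. More generally
the same holds for all sets `A` of points `x` at which the averages of `|u|` over small balls are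
bounded.
-/

set_option autoImplicit false

open MeasureTheory Filter Topology Set Metric
open scoped ContDiff

namespace Pool.Agent.Results.MP_06111c_an.JumpPart

variable {n : ℕ} {V W : Type*} [NormedAddCommGroup V] [InnerProductSpace ℝ V]
  [FiniteDimensional ℝ V] [NormedAddCommGroup W] [InnerProductSpace ℝ W] [FiniteDimensional ℝ W]

/-- The space `ℝ^n`. -/
abbrev Space (n : ℕ) : Type := EuclideanSpace ℝ (Fin n)

/-- the partial derivative `∂_j φ` at `x` -/
noncomputable def partialDeriv (j : Fin n) (φ : Space n → ℝ) (x : Space n) : ℝ :=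
  fderiv ℝ φ x (EuclideanSpace.single j 1)

/-- `u ∈ L¹(Ω; V)`, the distribution `𝓑u = ∑ B_j ∂_j u` on `Ω` is a finite `W`-valued measure and
`μ` is its total variation `|𝓑u|`: there is a polar decomposition `𝓑u = g μ` with `|g| = 1` almost
everywhere for `μ`, i.e. `∫ φ g dμ = -∫_Ω ∑_j (∂_j φ) B_j u dx` for all test functions `φ`. -/
def IsVariation (B : Fin n → V →ₗ[ℝ] W) (Ω : Set (Space n)) (u : Space n → V)
    (μ : Measure (Space n)) : Prop :=
  IntegrableOn u Ω ∧ IsFiniteMeasure μ ∧ μ Ωᶜ = 0 ∧ ∃ g : Space n → W,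
    AEStronglyMeasurable g μ ∧ (∀ᵐ x ∂μ, ‖g x‖ = 1) ∧
    ∀ φ : Space n → ℝ, ContDiff ℝ ∞ φ → HasCompactSupport φ → tsupport φ ⊆ Ω →
      ∫ x, φ x • g x ∂μ = -∫ x in Ω, ∑ j, partialDeriv j φ x • B j (u x)

/-- the half ball `B_r^+(x, ν)`; `B_r^-(x, ν)` is `halfBall x (-ν) r` -/
def halfBall (x ν : Space n) (r : ℝ) : Set (Space n) := ball x r ∩ {y | 0 < inner ℝ (y - x) ν}

/-- the jump set `J_u` -/
def jumpSet (Ω : Set (Space n)) (u : Space n → V) : Set (Space n) :=
  {x ∈ Ω | ∃ (a b : V) (ν : Space n), a ≠ b ∧ ‖ν‖ = 1 ∧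
    Tendsto (fun r : ℝ => (r ^ n)⁻¹ * ∫ y in halfBall x ν r, ‖u y - a‖) (𝓝[>] 0) (𝓝 0) ∧
    Tendsto (fun r : ℝ => (r ^ n)⁻¹ * ∫ y in halfBall x (-ν) r, ‖u y - b‖) (𝓝[>] 0) (𝓝 0)}

/-- the points of `Ω` at which the averages of `|u|` over small balls are bounded -/
def boundedAverages (Ω : Set (Space n)) (u : Space n → V) : Set (Space n) :=
  {x ∈ Ω | ∃ C : ℝ, ∀ᶠ r : ℝ in 𝓝[>] 0, (r ^ n)⁻¹ * ∫ y in ball x r, ‖u y‖ ≤ C}

omit [InnerProductSpace ℝ V] [FiniteDimensional ℝ V] in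
theorem half_bound {Ω : Set (Space n)} {u : Space n → V} (hu : IntegrableOn u Ω) {x ν : Space n}
    {a : V} {r : ℝ} (hr : 0 < r) (hrΩ : ball x r ⊆ Ω)
    (h : (r ^ n)⁻¹ * ∫ y in halfBall x ν r, ‖u y - a‖ ≤ 1) :
    ∫ y in halfBall x ν r, ‖u y‖ ≤
      (1 + ‖a‖ * volume.real (ball (0 : Space n) 1)) * r ^ n := by
  have hsub : halfBall x ν r ⊆ ball x r := inter_subset_left
  have hi : IntegrableOn u (halfBall x ν r) := hu.mono_set (hsub.trans hrΩ)
  have hfin : volume (halfBall x ν r) ≠ ⊤ := measure_ne_top_of_subset hsub measure_ball_lt_top.ne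
  have : IsFiniteMeasure (volume.restrict (halfBall x ν r)) :=
    ⟨by rw [Measure.restrict_apply_univ]; exact hfin.lt_top⟩
  have h1 : ∫ y in halfBall x ν r, ‖u y‖ ≤ ∫ y in halfBall x ν r, (‖u y - a‖ + ‖a‖) := by
    refine integral_mono hi.norm ((hi.sub (integrable_const a)).norm.add (integrable_const _))
      fun y => ?_
    have := norm_add_le (u y - a) a
    rwa [sub_add_cancel] at this
  have h2 : ∫ y in halfBall x ν r, (‖u y - a‖ + ‖a‖) =
      (∫ y in halfBall x ν r, ‖u y - a‖) + volume.real (halfBall x ν r) * ‖a‖ := by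
    have i1 : Integrable (fun y => ‖u y - a‖) (volume.restrict (halfBall x ν r)) :=
      (hi.sub (integrable_const a)).norm
    rw [integral_add i1 (integrable_const _), setIntegral_const, smul_eq_mul]
  have h3 : ∫ y in halfBall x ν r, ‖u y - a‖ ≤ r ^ n := by
    rw [inv_mul_le_iff₀ (by positivity), mul_one] at h
    exact h
  have h4 : volume.real (halfBall x ν r) ≤ r ^ n * volume.real (ball (0 : Space n) 1) := by
    refine (measureReal_mono hsub measure_ball_lt_top.ne).trans (le_of_eq ?_)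
    rw [Measure.real, Measure.real, Measure.addHaar_ball_of_pos volume x hr, ENNReal.toReal_mul,
      ENNReal.toReal_ofReal (by positivity)]
    simp
  have h5 : volume.real (halfBall x ν r) * ‖a‖ ≤
      r ^ n * volume.real (ball (0 : Space n) 1) * ‖a‖ :=
    mul_le_mul_of_nonneg_right h4 (norm_nonneg _)
  calc ∫ y in halfBall x ν r, ‖u y‖ ≤ r ^ n + r ^ n * volume.real (ball (0 : Space n) 1) * ‖a‖ := by
        linarith
    _ = _ := by ring

theorem null_hyperplane {x ν : Space n} (hν : ‖ν‖ = 1) :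
    volume {y : Space n | inner ℝ (y - x) ν = 0} = 0 := by
  set s : AffineSubspace ℝ (Space n) := AffineSubspace.mk' x (LinearMap.ker (innerₗ (Space n) ν))
    with hs
  have h1 : {y : Space n | inner ℝ (y - x) ν = 0} = (s : Set (Space n)) := by
    ext y
    rw [Set.mem_ofPred_eq, SetLike.mem_coe, hs, AffineSubspace.mem_mk', vsub_eq_sub,
      LinearMap.mem_ker, innerₗ_apply_apply, real_inner_comm]
  rw [h1]
  apply Measure.addHaar_affineSubspace
  intro htop
  have h2 : x + ν ∈ s := by rw [htop]; trivial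
  rw [hs, AffineSubspace.mem_mk', vsub_eq_sub, add_sub_cancel_left, LinearMap.mem_ker,
    innerₗ_apply_apply, real_inner_self_eq_norm_sq, hν] at h2
  norm_num at h2

omit [InnerProductSpace ℝ V] [FiniteDimensional ℝ V] in
theorem jump_subset {Ω : Set (Space n)} (hΩ : IsOpen Ω) {u : Space n → V}
    (hu : IntegrableOn u Ω) : jumpSet Ω u ⊆ boundedAverages Ω u := by
  rintro x ⟨hx, a, b, ν, -, hν, h1, h2⟩
  obtain ⟨rΩ, hrΩ0, hrΩ⟩ := Metric.isOpen_iff.1 hΩ x hx
  refine ⟨hx, (1 + ‖a‖ * volume.real (ball (0 : Space n) 1)) +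
    (1 + ‖b‖ * volume.real (ball (0 : Space n) 1)), ?_⟩
  have h3 : ∀ᶠ r : ℝ in 𝓝[>] 0, r ∈ Ioo (0 : ℝ) rΩ := Ioo_mem_nhdsGT hrΩ0
  filter_upwards [h1.eventually (gt_mem_nhds zero_lt_one), h2.eventually (gt_mem_nhds zero_lt_one),
    h3] with r h4 h5 h6
  have hr0 := h6.1
  have hsub : ball x r ⊆ Ω := (ball_subset_ball h6.2.le).trans hrΩ
  have h7 := half_bound hu hr0 hsub h4.le
  have h8 := half_bound hu hr0 hsub h5.le
  rw [inv_mul_le_iff₀ (by positivity)]
  have hiu : IntegrableOn (fun y => ‖u y‖) (ball x r) := (hu.mono_set hsub).norm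
  have h9 : ∫ y in ball x r, ‖u y‖ ≤
      (∫ y in halfBall x ν r, ‖u y‖) + ∫ y in halfBall x (-ν) r, ‖u y‖ := by
    have hm : MeasurableSet (halfBall x ν r) := by
      refine measurableSet_ball.inter (measurableSet_lt measurable_const ?_)
      fun_prop
    have hm' : MeasurableSet (halfBall x (-ν) r) := by
      refine measurableSet_ball.inter (measurableSet_lt measurable_const ?_)
      fun_prop
    have hdisj : Disjoint (halfBall x ν r) (halfBall x (-ν) r) := by
      rw [Set.disjoint_left]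
      rintro y ⟨-, hy1⟩ ⟨-, hy2⟩
      simp only [Set.mem_ofPred_eq, inner_neg_right] at hy1 hy2
      linarith
    rw [← setIntegral_union hdisj hm' (hiu.mono_set inter_subset_left)
      (hiu.mono_set inter_subset_left)]
    have hae : (ball x r : Set (Space n)) ≤ᵐ[volume] (halfBall x ν r ∪ halfBall x (-ν) r :
        Set (Space n)) := by
      have h10 : ∀ᵐ y : Space n, ¬ (inner ℝ (y - x) ν = 0) := by
        rw [ae_iff]
        simpa using null_hyperplane (x := x) hν
      filter_upwards [h10] with y hy hyb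
      rcases lt_or_gt_of_ne hy with h11 | h11
      · right
        refine ⟨hyb, ?_⟩
        show 0 < inner ℝ (y - x) (-ν)
        rw [inner_neg_right]
        linarith
      · left
        exact ⟨hyb, h11⟩
    refine setIntegral_mono_set ?_ (ae_of_all _ fun y => norm_nonneg _) hae
    exact hiu.mono_set (union_subset inter_subset_left inter_subset_left)
  calc ∫ y in ball x r, ‖u y‖ ≤ _ := h9
    _ ≤ _ := add_le_add h7 h8
    _ = _ := by ring

omit [FiniteDimensional ℝ W] in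
theorem rep_bound (B : Fin n → V →ₗ[ℝ] W) {Ω : Set (Space n)} {u : Space n → V}
    (hu : IntegrableOn u Ω) {μ : Measure (Space n)} {g : Space n → W}
    (hrep : ∀ φ : Space n → ℝ, ContDiff ℝ ∞ φ → HasCompactSupport φ → tsupport φ ⊆ Ω →
      ∫ x, φ x • g x ∂μ = -∫ x in Ω, ∑ j, partialDeriv j φ x • B j (u x))
    (φ : Space n → ℝ) (h1 : ContDiff ℝ ∞ φ) (h2 : HasCompactSupport φ) (h3 : tsupport φ ⊆ Ω) :
    ‖∫ y, φ y • g y ∂μ‖ ≤ (∑ j, ‖(B j).toContinuousLinearMap‖) *
      ∫ y in Ω, ‖fderiv ℝ φ y‖ * ‖u y‖ := by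
  rw [hrep φ h1 h2 h3, norm_neg, ← integral_const_mul]
  obtain ⟨K, hK⟩ := (h1.continuous_fderiv (by simp)).bounded_above_of_compact_support
    (h2.fderiv ℝ)
  have hint : IntegrableOn (fun y => ‖fderiv ℝ φ y‖ * ‖u y‖) Ω := by
    refine (hu.norm.bdd_mul (c := K) (h1.continuous_fderiv (by simp)).norm.aestronglyMeasurable
      (ae_of_all _ fun y => ?_))
    rw [norm_norm]
    exact hK y
  refine norm_integral_le_of_norm_le (hint.const_mul _) (ae_of_all _ fun y => ?_)
  rw [Finset.sum_mul]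
  refine (norm_sum_le _ _).trans (Finset.sum_le_sum fun j _ => ?_)
  rw [norm_smul]
  have e1 : ‖partialDeriv j φ y‖ ≤ ‖fderiv ℝ φ y‖ := by
    refine ((fderiv ℝ φ y).le_opNorm _).trans ?_
    simp
  have e2 : ‖B j (u y)‖ ≤ ‖(B j).toContinuousLinearMap‖ * ‖u y‖ :=
    (B j).toContinuousLinearMap.le_opNorm (u y)
  calc ‖partialDeriv j φ y‖ * ‖B j (u y)‖ ≤
        ‖fderiv ℝ φ y‖ * (‖(B j).toContinuousLinearMap‖ * ‖u y‖) :=
        mul_le_mul e1 e2 (norm_nonneg _) (norm_nonneg _)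
    _ = _ := by ring

/-- Let `n ≥ 2`, let `𝓑[D] = ∑ B_j ∂_j` be any first-order operator with constant coefficients (in
particular any elliptic one) from functions with values in `V` to functions with values in `W`, let
`Ω ⊆ ℝ^n` be open and `u ∈ BV^𝓑(Ω)`, `μ = |𝓑u|`. Then `|𝓑u|(A) = 0` for every subset `A` of the jump
set `J_u` with `ℋ^(n-1)(A) = 0`, that is `|𝓑u ⌞ J_u| ≪ ℋ^(n-1)`. More generally this holds for every
subset `A` of the set of points of `Ω` at which the averages of `|u|` over small balls are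
bounded. -/
theorem result (n : ℕ) (hn : 2 ≤ n) (V W : Type*) [NormedAddCommGroup V] [InnerProductSpace ℝ V]
    [FiniteDimensional ℝ V] [NormedAddCommGroup W] [InnerProductSpace ℝ W] [FiniteDimensional ℝ W]
    (B : Fin n → V →ₗ[ℝ] W) (Ω : Set (Space n)) (hΩ : IsOpen Ω) (u : Space n → V)
    (μ : Measure (Space n)) (hμ : IsVariation B Ω u μ) :
    (∀ A ⊆ jumpSet Ω u, μH[(n : ℝ) - 1] A = 0 → μ A = 0) ∧
    ∀ A ⊆ boundedAverages Ω u, μH[(n : ℝ) - 1] A = 0 → μ A = 0 := by
  obtain ⟨hu, hfin, -, g, hgm, hg1, hrep⟩ := hμ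
  suffices key : ∀ A ⊆ boundedAverages Ω u, μH[(n : ℝ) - 1] A = 0 → μ A = 0 from
    ⟨fun A hA => key A (hA.trans (jump_subset hΩ hu)), key⟩
  intro A hA hHA
  obtain ⟨m, rfl⟩ : ∃ m, n = m + 1 := ⟨n - 1, by omega⟩
  have hm : 0 < m := by omega
  have hcast : (((m + 1 : ℕ) : ℝ) - 1) = (m : ℝ) := by push_cast; ring
  rw [hcast] at hHA
  have hgi : Integrable g μ := Integrable.of_bound hgm 1 (by
    filter_upwards [hg1] with x hx
    exact hx.le)
  have hleb := (Besicovitch.vitaliFamily μ).ae_tendsto_average_norm_sub hgi.locallyIntegrable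
  set N : Set (Space (m + 1)) := {x | ¬ (‖g x‖ = 1 ∧ Tendsto (fun a => ⨍ y in a, ‖g y - g x‖ ∂μ)
    ((Besicovitch.vitaliFamily μ).filterAt x) (𝓝 0))} with hN
  have hN0 : μ N = 0 := by
    have := hg1.and hleb
    rwa [ae_iff] at this
  have hAN : μ (A \ N) = 0 := by
    refine X187.JA.null_of_growth hm (measure_mono_null sdiff_subset hHA) ?_
    rintro x ⟨hxA, hxN⟩
    rw [hN, Set.mem_ofPred_eq, not_not] at hxN
    obtain ⟨hgx, htx⟩ := hxN
    obtain ⟨hxΩ, C, hC⟩ := hA hxA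
    have hev : ∃ r0 : ℝ, 0 < r0 ∧ ∀ r, 0 < r → r ≤ r0 →
        (r ^ (m + 1))⁻¹ * ∫ y in ball x r, ‖u y‖ ≤ C := by
      rw [Filter.Eventually, mem_nhdsGT_iff_exists_Ioc_subset] at hC
      obtain ⟨r0, h2, h3⟩ := hC
      exact ⟨r0, h2, fun r hr1 hr2 => h3 ⟨hr1, hr2⟩⟩
    obtain ⟨r0, hr0, hr0C⟩ := hev
    obtain ⟨rΩ, hrΩ0, hrΩ⟩ := Metric.isOpen_iff.1 hΩ x hxΩ
    refine X187.JA.local_growth hΩ hu hgi (Finset.sum_nonneg fun _ _ => norm_nonneg _)
      (rep_bound B hu hrep) hxΩ hgx (htx.comp (Besicovitch.tendsto_filterAt μ x))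
      (C0 := C * 2 ^ (m + 1)) (r0 := min (r0 / 2) (rΩ / 2)) (by positivity) fun r hr hrr => ?_
    have h1 : 2 * r ≤ r0 := by
      have := hrr.trans (min_le_left _ _)
      linarith
    have h2 := hr0C (2 * r) (by positivity) h1
    rw [inv_mul_le_iff₀ (by positivity)] at h2
    have h3 : closedBall x r ⊆ ball x (2 * r) := closedBall_subset_ball (by linarith)
    have h4 : ball x (2 * r) ⊆ Ω := by
      refine (ball_subset_ball ?_).trans hrΩ
      have := hrr.trans (min_le_right _ _)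
      linarith
    have h5 : ∫ y in closedBall x r, ‖u y‖ ≤ ∫ y in ball x (2 * r), ‖u y‖ :=
      setIntegral_mono_set (hu.mono_set h4).norm (ae_of_all _ fun y => norm_nonneg _)
        (LE.le.eventuallyLE h3)
    refine h5.trans (h2.trans (le_of_eq ?_))
    rw [mul_pow]
    ring
  exact measure_mono_null (fun x hx => by
    by_cases h : x ∈ N
    · exact Or.inl h
    · exact Or.inr ⟨hx, h⟩) (measure_union_null hN0 hAN)

end Pool.Agent.Results.MP_06111c_an.JumpPart
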